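import Pool.Agent.TH612.GS.Stm

set_option autoImplicit false

/-! # Project GS, part SW: the terms with at least one swap are small on average -/

namespace Pool.Agent.TH805.GS

open Complex Filter Topology MeasureTheory Set
open Pool.Agent.TH612.CF Pool.Agent.TH612.GS
open scoped ComplexConjugate

noncomputable section

/-- the factor of the functional equation has absolute value one on the critical line -/
lemma norm_chi (u : ℝ) : ‖chi (1 / 2 + I * u)‖ = 1 := by
  unfold chi
  have e1 : (1 - (1 / 2 + I * (u : ℂ))) / 2 = conj ((1 / 2 + I * (u : ℂ)) / 2) := by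
    simp only [map_div₀, map_add, map_mul, conj_I, conj_ofReal, map_one, map_ofNat]
    ring
  have e2 : (1 / 2 + I * (u : ℂ) - 1 / 2) = I * u := by ring
  have hg : Gamma ((1 / 2 + I * (u : ℂ)) / 2) ≠ 0 := Gamma_ne_zero_of_re_pos (by simp)
  rw [e1, e2, Gamma_conj, norm_div, norm_mul, RCLike.norm_conj,
    norm_cpow_eq_rpow_re_of_pos Real.pi_pos]
  have e3 : (I * (u : ℂ)).re = 0 := by simp
  rw [e3, Real.rpow_zero, one_mul, div_self (norm_ne_zero_iff.2 hg)]

lemma norm_chi' (a b : ℝ) : ‖chi (1 / 2 - I * a - I * b)‖ = 1 := by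
  have h := norm_chi (-a - b)
  have e : (1 / 2 + I * ((-a - b : ℝ) : ℂ)) = 1 / 2 - I * a - I * b := by
    push_cast; ring
  rwa [e] at h

lemma norm_chi'' (a b : ℝ) : ‖chi (1 / 2 + I * a + I * b)‖ = 1 := by
  have h := norm_chi (a + b)
  have e : (1 / 2 + I * ((a + b : ℝ) : ℂ)) = 1 / 2 + I * a + I * b := by
    push_cast; ring
  rwa [e] at h

lemma cont_chi : Continuous fun u : ℝ => chi (1 / 2 + I * (u : ℂ)) := by
  rw [continuous_iff_continuousAt]
  intro u
  have h1 : DifferentiableAt ℂ chi (1 / 2 + I * (u : ℂ)) := chi_diff (by simp)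
  have h2 : ContinuousAt (fun u : ℝ => (1 / 2 + I * (u : ℂ) : ℂ)) u := by fun_prop
  exact ContinuousAt.comp (f := fun u : ℝ => (1 / 2 + I * (u : ℂ) : ℂ)) h1.continuousAt h2

variable {k : ℕ}

/-- the other factors -/
def RR (j₀ : Fin k) (t : ℝ) (γ : Fin k ⊕ Fin k → ℝ) (π : Equiv.Perm (Fin k ⊕ Fin k)) : ℂ :=
  (∏ j : Fin k, if (π (Sum.inl j)).isRight then
    chi (1 / 2 - I * t - I * (γ (π (Sum.inl j)) : ℂ)) else 1) *
  ∏ j ∈ Finset.univ.erase j₀, if (π (Sum.inr j)).isLeft then
    chi (1 / 2 + I * t + I * (γ (π (Sum.inr j)) : ℂ)) else 1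

lemma GG_split (j₀ : Fin k) (t : ℝ) (γ : Fin k ⊕ Fin k → ℝ) (π : Equiv.Perm (Fin k ⊕ Fin k))
    (h : (π (Sum.inr j₀)).isLeft = true) :
    GG t (fun i => (γ i : ℂ)) π =
      chi (1 / 2 + I * (t + γ (π (Sum.inr j₀)))) * RR j₀ t γ π := by
  unfold GG RR
  rw [← Finset.mul_prod_erase Finset.univ (fun j : Fin k => if (π (Sum.inr j)).isLeft then
    chi (1 / 2 + I * t + I * (γ (π (Sum.inr j)) : ℂ)) else 1) (Finset.mem_univ j₀), if_pos h]
  have e : (1 / 2 + I * ((t : ℂ) + (γ (π (Sum.inr j₀)) : ℂ)))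
      = 1 / 2 + I * t + I * (γ (π (Sum.inr j₀)) : ℂ) := by ring
  rw [e]
  ring

lemma RR_update (j₀ : Fin k) (t y : ℝ) (γ : Fin k ⊕ Fin k → ℝ)
    (π : Equiv.Perm (Fin k ⊕ Fin k)) :
    RR j₀ t (Function.update γ (π (Sum.inr j₀)) y) π = RR j₀ t γ π := by
  unfold RR
  congr 1
  · refine Finset.prod_congr rfl fun j _ => ?_
    have h : π (Sum.inl j) ≠ π (Sum.inr j₀) := fun h => by
      have := π.injective h
      simp at this
    rw [Function.update_of_ne h]
  · refine Finset.prod_congr rfl fun j hj => ?_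
    have h : π (Sum.inr j) ≠ π (Sum.inr j₀) := fun h => by
      have := π.injective h
      simp only [Sum.inr.injEq] at this
      exact (Finset.ne_of_mem_erase hj) this
    rw [Function.update_of_ne h]

lemma norm_RR (j₀ : Fin k) (t : ℝ) (γ : Fin k ⊕ Fin k → ℝ) (π : Equiv.Perm (Fin k ⊕ Fin k)) :
    ‖RR j₀ t γ π‖ ≤ 1 := by
  unfold RR
  rw [norm_mul, norm_prod, norm_prod]
  have h1 : (∏ j : Fin k, ‖(if (π (Sum.inl j)).isRight then
      chi (1 / 2 - I * t - I * (γ (π (Sum.inl j)) : ℂ)) else 1)‖) = 1 := by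
    refine Finset.prod_eq_one fun j _ => ?_
    split_ifs
    · exact norm_chi' _ _
    · exact norm_one
  have h2 : (∏ j ∈ Finset.univ.erase j₀, ‖(if (π (Sum.inr j)).isLeft then
      chi (1 / 2 + I * t + I * (γ (π (Sum.inr j)) : ℂ)) else 1)‖) = 1 := by
    refine Finset.prod_eq_one fun j _ => ?_
    split_ifs
    · exact norm_chi'' _ _
    · exact norm_one
  rw [h1, h2, one_mul]

lemma cont_RR (j₀ : Fin k) (γ : Fin k ⊕ Fin k → ℝ) (π : Equiv.Perm (Fin k ⊕ Fin k)) :
    Continuous fun t : ℝ => RR j₀ t γ π := by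
  unfold RR
  refine Continuous.mul (continuous_finsetProd _ fun j _ => ?_)
    (continuous_finsetProd _ fun j _ => ?_)
  · split_ifs
    · have h := cont_chi.comp (g := fun u : ℝ => chi (1 / 2 + I * (u : ℂ)))
        (f := fun t : ℝ => -t - γ (π (Sum.inl j))) (by fun_prop)
      refine h.congr fun t => ?_
      simp only [Function.comp]
      congr 1
      push_cast
      ring
    · exact continuous_const
  · split_ifs
    · have h := cont_chi.comp (g := fun u : ℝ => chi (1 / 2 + I * (u : ℂ)))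
        (f := fun t : ℝ => t + γ (π (Sum.inr j))) (by fun_prop)
      refine h.congr fun t => ?_
      simp only [Function.comp]
      congr 1
      push_cast
      ring
    · exact continuous_const

/-- joint continuity -/
lemma cont_GG (π : Equiv.Perm (Fin k ⊕ Fin k)) :
    Continuous fun q : (Fin k ⊕ Fin k → ℝ) × ℝ => GG q.2 (fun i => (q.1 i : ℂ)) π := by
  rw [← continuousOn_univ]
  refine GG_cont (T := fun q : (Fin k ⊕ Fin k → ℝ) × ℝ => q.2)
    (Γ := fun q : (Fin k ⊕ Fin k → ℝ) × ℝ => fun i => (q.1 i : ℂ)) ?_ ?_ ?_ π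
  · exact continuous_snd.continuousOn
  · intro i
    have : Continuous fun q : (Fin k ⊕ Fin k → ℝ) × ℝ => (q.1 i : ℂ) := by fun_prop
    exact this.continuousOn
  · intro x _ i
    simp

lemma cont_int (π : Equiv.Perm (Fin k ⊕ Fin k)) (S : ℝ) :
    Continuous fun γ : Fin k ⊕ Fin k → ℝ => ∫ t in (0:ℝ)..S, GG t (fun i => (γ i : ℂ)) π :=
  intervalIntegral.continuous_parametric_intervalIntegral_of_continuous'
    (f := fun (γ : Fin k ⊕ Fin k → ℝ) (t : ℝ) => GG t (fun i => (γ i : ℂ)) π) (cont_GG π) 0 S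

theorem t_SW (hCHI : S_CHI) : S_SW := by
  intro k
  obtain ⟨C, T₀, hC, hT₀, hchi⟩ := hCHI
  refine ⟨C, T₀, hC, hT₀, ?_⟩
  rintro T S π hT hS hST ⟨j₀, hj₀⟩
  have hT0 : 0 < T := by linarith
  set p : Fin k ⊕ Fin k := π (Sum.inr j₀) with hp
  set F : (Fin k ⊕ Fin k → ℝ) → ENNReal :=
    fun γ => ENNReal.ofReal (‖∫ t in (0:ℝ)..S, GG t (fun i => (γ i : ℂ)) π‖ ^ 2) with hF
  have hFm : Measurable F := by
    have : Continuous F := ENNReal.continuous_ofReal.comp (((cont_int π S).norm).pow 2)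
    exact this.measurable
  have hin : ∀ γ : Fin k ⊕ Fin k → ℝ,
      ∫⁻ y, F (Function.update γ p y) ∂(volume.restrict (Icc 0 T)) ≤
        ENNReal.ofReal (C * T ^ 2 * Real.log T ^ 2) := by
    intro γ
    have h1 := hchi T S (fun t => RR j₀ t γ π) hT hS hST (cont_RR j₀ γ π)
      (fun t => norm_RR j₀ t γ π)
    have hc : Continuous fun y : ℝ =>
        ‖∫ t in (0:ℝ)..S, chi (1 / 2 + I * (t + y)) * RR j₀ t γ π‖ ^ 2 := by
      refine Continuous.pow (Continuous.norm ?_) 2
      refine intervalIntegral.continuous_parametric_intervalIntegral_of_continuous'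
        (f := fun (y t : ℝ) => chi (1 / 2 + I * ((t : ℂ) + (y : ℂ))) * RR j₀ t γ π) ?_ 0 S
      have h2 : Continuous fun q : ℝ × ℝ => chi (1 / 2 + I * ((q.2 : ℂ) + (q.1 : ℂ))) := by
        have h := cont_chi.comp (g := fun u : ℝ => chi (1 / 2 + I * (u : ℂ)))
          (f := fun q : ℝ × ℝ => q.2 + q.1) (by fun_prop)
        refine h.congr fun t => ?_
        simp only [Function.comp]
        congr 1
        push_cast
        ring
      exact h2.mul ((cont_RR j₀ γ π).comp continuous_snd)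
    have h3 : ∀ y : ℝ, F (Function.update γ p y) =
        ENNReal.ofReal (‖∫ t in (0:ℝ)..S, chi (1 / 2 + I * (t + y)) * RR j₀ t γ π‖ ^ 2) := by
      intro y
      simp only [hF]
      congr 3
      refine intervalIntegral.integral_congr fun t _ => ?_
      rw [GG_split j₀ t (Function.update γ p y) π hj₀, RR_update, ← hp, Function.update_self]
    simp only [h3]
    rw [← ofReal_integral_eq_lintegral_ofReal]
    · refine ENNReal.ofReal_le_ofReal ?_
      rw [integral_Icc_eq_integral_Ioc, ← intervalIntegral.integral_of_le hT0.le]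
      exact h1
    · exact hc.continuousOn.integrableOn_compact isCompact_Icc
    · exact Eventually.of_forall fun y => by positivity
  change ∫⁻ γ, F γ ∂(Measure.pi fun _ => volume.restrict (Icc 0 T)) ≤ _
  rw [lintegral_eq_lmarginal_univ (fun _ => (0 : ℝ)), lmarginal_erase' F hFm (Finset.mem_univ p)]
  refine (lmarginal_mono (g := fun _ => ENNReal.ofReal (C * T ^ 2 * Real.log T ^ 2))
    (fun γ => hin γ) _).trans ?_
  unfold lmarginal
  rw [lintegral_const, Measure.pi_univ]
  have hm : (∏ i : {x // x ∈ Finset.univ.erase p}, (volume.restrict (Icc 0 T) : Measure ℝ) univ)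
      = ENNReal.ofReal T ^ (2 * k - 1) := by
    rw [Measure.restrict_apply_univ, Real.volume_Icc, sub_zero, Finset.prod_const]
    congr 1
    rw [Finset.card_univ, Fintype.card_coe, Finset.card_erase_of_mem (Finset.mem_univ _),
      Finset.card_univ, Fintype.card_sum, Fintype.card_fin]
    omega
  rw [hm, ← ENNReal.ofReal_pow hT0.le, ← ENNReal.ofReal_mul (by positivity)]
  refine ENNReal.ofReal_le_ofReal (le_of_eq ?_)
  have hk : 1 ≤ k := by
    have := j₀.pos
    omega
  have e : 2 * k + 1 = 2 + (2 * k - 1) := by omega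
  rw [e, pow_add]
  ring

end

end Pool.Agent.TH805.GS
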